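import Mathlib
import Pool.Agent.R489.SQ.Stm

/-!
# SQ-N2: good subsets of prescribed square size in laminar families (MP_115f12_co)
-/

set_option autoImplicit false

open Finset

namespace Pool.Agent.R193.SQ

open Pool.Agent.R489.SQ

theorem isSquare_le_one {m : ℕ} (h : m ≤ 1) : IsSquare m := by
  interval_cases m
  · exact ⟨0, rfl⟩
  · exact ⟨1, rfl⟩

section

variable {α : Type} [DecidableEq α]

theorem ncard_inter (S Y : Finset α) : {x | x ∈ S ∧ x ∈ Y}.ncard = (S ∩ Y).card := by
  have : {x | x ∈ S ∧ x ∈ Y} = ((S ∩ Y : Finset α) : Set α) := by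
    ext x
    simp
  rw [this, Set.ncard_coe_finset]

/-- the child containing `x` -/
def Mx (L : Finset (Finset α)) (x : α) : Finset α :=
  {x} ∪ (L.filter (fun S => x ∈ S)).biUnion id

theorem mem_Mx (L : Finset (Finset α)) (x : α) : x ∈ Mx L x := by
  simp [Mx]

theorem le_Mx {L : Finset (Finset α)} {S : Finset α} {x : α} (hS : S ∈ L) (hx : x ∈ S) :
    S ⊆ Mx L x := by
  intro y hy
  unfold Mx
  rw [mem_union, mem_biUnion]
  exact Or.inr ⟨S, mem_filter.2 ⟨hS, hx⟩, hy⟩

theorem Mx_sub {k : ℕ} {X : Finset α} {L : Finset (Finset α)} (hL : Lam k X L) {x : α}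
    (hx : x ∈ X) : Mx L x ⊆ X := by
  intro y hy
  unfold Mx at hy
  rw [mem_union, mem_biUnion] at hy
  rcases hy with hy | ⟨S, hS, hy⟩
  · rw [mem_singleton] at hy
    rw [hy]
    exact hx
  · exact hL.sub S (mem_filter.1 hS).1 hy

theorem Mx_cases {k : ℕ} {X : Finset α} {L : Finset (Finset α)} (hL : Lam k X L) (x : α) :
    (Mx L x ∈ L) ∨ (Mx L x = {x} ∧ ∀ S ∈ L, x ∉ S) := by
  by_cases h : (L.filter (fun S => x ∈ S)).Nonempty
  · left
    obtain ⟨S0, hS0, hmax⟩ := exists_max_image (L.filter (fun S => x ∈ S)) card h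
    rw [mem_filter] at hS0
    have hall : ∀ S ∈ L, x ∈ S → S ⊆ S0 := by
      intro S hS hxS
      rcases hL.lam S hS S0 hS0.1 with h1 | h1 | h1
      · exact h1
      · have h2 := hmax S (mem_filter.2 ⟨hS, hxS⟩)
        rw [eq_of_subset_of_card_le h1 h2]
      · exact absurd hS0.2 (disjoint_left.1 h1 hxS)
    have : Mx L x = S0 := by
      apply Subset.antisymm
      · intro y hy
        unfold Mx at hy
        rw [mem_union, mem_biUnion] at hy
        rcases hy with hy | ⟨S, hS, hy⟩
        · rw [mem_singleton] at hy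
          rw [hy]
          exact hS0.2
        · exact hall S (mem_filter.1 hS).1 (mem_filter.1 hS).2 hy
      · exact le_Mx hS0.1 hS0.2
    rw [this]
    exact hS0.1
  · right
    rw [not_nonempty_iff_eq_empty] at h
    refine ⟨by simp [Mx, h], fun S hS hx => ?_⟩
    have : S ∈ L.filter (fun S => x ∈ S) := mem_filter.2 ⟨hS, hx⟩
    rw [h] at this
    exact absurd this (notMem_empty _)

theorem Mx_eq {k : ℕ} {X : Finset α} {L : Finset (Finset α)} (hL : Lam k X L) {x y : α}
    (hy : y ∈ Mx L x) : Mx L y = Mx L x := by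
  rcases Mx_cases hL x with h | ⟨h, _⟩
  · have h1 : Mx L x ⊆ Mx L y := le_Mx h hy
    rcases Mx_cases hL y with h2 | ⟨_, h2⟩
    · exact Subset.antisymm (le_Mx h2 (h1 (mem_Mx L x))) h1
    · exact absurd hy (h2 _ h)
  · rw [h, mem_singleton] at hy
    rw [hy]

end

theorem n2 : StmtN2 := by
  intro hN1 k
  classical
  induction k with
  | zero =>
    refine ⟨1, le_rfl, ?_⟩
    intro α X L n hL hX _ hn
    have hn' : n ≤ X.card := by
      have : 1 ≤ X.card := hX.card_pos
      rw [Nat.div_one, max_eq_right this] at hn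
      exact hn
    obtain ⟨Y, hY, hYc⟩ := exists_subset_card_eq hn'
    refine ⟨Y, hY, hYc, ?_⟩
    intro S hS
    have hSe : S = ∅ := by
      rw [eq_empty_iff_forall_notMem]
      intro x hx
      have h1 := hL.depth x (hL.sub S hS hx)
      have hfin : {S : Finset α | S ∈ L ∧ x ∈ S}.Finite :=
        L.finite_toSet.subset fun S hS => hS.1
      have h2 : {S : Finset α | S ∈ L ∧ x ∈ S} = ∅ := by
        rw [← Set.ncard_eq_zero hfin]
        omega
      have h3 : S ∈ {S : Finset α | S ∈ L ∧ x ∈ S} := ⟨hS, hx⟩
      rw [h2] at h3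
      exact h3
    rw [ncard_inter, hSe]
    simp
  | succ k ih =>
    obtain ⟨E, hE, ih⟩ := ih
    refine ⟨14 * E, by omega, ?_⟩
    intro α X L n hL hX hsq hn
    rcases Nat.lt_or_ge n 2 with hn2 | hn2
    · -- at most one point
      have hnX : n ≤ X.card := by
        have := hX.card_pos
        omega
      obtain ⟨Y, hY, hYc⟩ := exists_subset_card_eq hnX
      refine ⟨Y, hY, hYc, ?_⟩
      intro S _
      apply isSquare_le_one
      rw [ncard_inter]
      exact (card_le_card inter_subset_right).trans (by omega)
    · have hbig : 14 * E * n ≤ X.card := by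
        have h1 : n ≤ X.card / (14 * E) := by
          rcases le_max_iff.1 hn with h | h
          · omega
          · exact h
        calc 14 * E * n ≤ 14 * E * (X.card / (14 * E)) := Nat.mul_le_mul_left _ h1
          _ ≤ X.card := Nat.mul_div_le _ _
      set I : Finset (Finset α) := X.image (Mx L) with hI
      set c : Finset α → ℕ := fun C => max 1 (C.card / E) with hc
      have hdisj : ∀ C ∈ I, ∀ C' ∈ I, C ≠ C' → Disjoint C C' := by
        intro C hC C' hC' hne
        rw [hI, mem_image] at hC hC'
        obtain ⟨x, hx, rfl⟩ := hC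
        obtain ⟨x', hx', rfl⟩ := hC'
        rw [disjoint_left]
        intro y hy hy'
        exact hne ((Mx_eq hL hy).symm.trans (Mx_eq hL hy'))
      have hsubX : ∀ C ∈ I, C ⊆ X := by
        intro C hC
        rw [hI, mem_image] at hC
        obtain ⟨x, hx, rfl⟩ := hC
        exact Mx_sub hL hx
      have hne : ∀ C ∈ I, C.Nonempty := by
        intro C hC
        rw [hI, mem_image] at hC
        obtain ⟨x, hx, rfl⟩ := hC
        exact ⟨x, mem_Mx L x⟩
      have hXu : X = I.biUnion id := by
        ext x
        rw [mem_biUnion]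
        constructor
        · intro hx
          exact ⟨Mx L x, mem_image_of_mem _ hx, mem_Mx L x⟩
        · rintro ⟨C, hC, hx⟩
          exact hsubX C hC hx
      have hXc : X.card = ∑ C ∈ I, C.card := by
        conv_lhs => rw [hXu]
        rw [card_biUnion]
        · rfl
        · intro C hC C' hC' hne'
          exact hdisj C hC C' hC' hne'
      have hcap : ∀ C : Finset α, C.card ≤ 2 * E * c C := by
        intro C
        simp only [hc]
        have h1 : C.card < E * (C.card / E + 1) := Nat.lt_mul_div_succ _ (by omega)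
        rcases Nat.eq_zero_or_pos (C.card / E) with h | h
        · rw [h] at h1 ⊢
          simp only [max_eq_left (Nat.zero_le 1)]
          nlinarith
        · rw [max_eq_right h]
          nlinarith
      have hsum : 7 * n ≤ ∑ C ∈ I, c C := by
        have h1 : X.card ≤ 2 * E * ∑ C ∈ I, c C := by
          rw [hXc, mul_sum]
          exact sum_le_sum fun C _ => hcap C
        have h2 : 2 * E * (7 * n) ≤ 2 * E * ∑ C ∈ I, c C := by
          calc 2 * E * (7 * n) = 14 * E * n := by ring
            _ ≤ _ := hbig.trans h1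
        exact Nat.le_of_mul_le_mul_left h2 (by omega)
      obtain ⟨y, hy, hysum⟩ := hN1 (Finset α) I c n (fun C _ => le_max_left _ _) hsq hsum
      -- the families of the children
      have hLC : ∀ C ∈ I, Lam k C (L.filter (fun S => S ⊆ C ∧ S ≠ C)) := by
        intro C hC
        refine ⟨fun S hS => (mem_filter.1 hS).2.1, fun S hS S' hS' =>
          hL.lam S (mem_filter.1 hS).1 S' (mem_filter.1 hS').1, ?_⟩
        intro x hx
        have hC' := hC
        rw [hI, mem_image] at hC'
        obtain ⟨z, hz, hzC⟩ := hC'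
        rcases Mx_cases hL z with h | ⟨h, h'⟩
        · rw [hzC] at h
          have hfin : {S : Finset α | S ∈ L ∧ x ∈ S}.Finite :=
            L.finite_toSet.subset fun S hS => hS.1
          have h1 := hL.depth x (hsubX C hC hx)
          have h2 : {S : Finset α | S ∈ L.filter (fun S => S ⊆ C ∧ S ≠ C) ∧ x ∈ S} ⊆
              {S : Finset α | S ∈ L ∧ x ∈ S} \ {C} := by
            rintro S ⟨hS, hxS⟩
            rw [mem_filter] at hS
            exact ⟨⟨hS.1, hxS⟩, hS.2.2⟩
          have h3 := Set.ncard_le_ncard h2 (hfin.subset Set.diff_subset)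
          have h4 : ({S : Finset α | S ∈ L ∧ x ∈ S} \ {C}).ncard + 1
              = {S : Finset α | S ∈ L ∧ x ∈ S}.ncard :=
            Set.ncard_diff_singleton_add_one ⟨h, hx⟩ hfin
          omega
        · rw [← hzC, h, mem_singleton] at hx
          have : {S : Finset α | S ∈ L.filter (fun S => S ⊆ C ∧ S ≠ C) ∧ x ∈ S} = ∅ := by
            rw [Set.eq_empty_iff_forall_notMem]
            rintro S ⟨hS, hxS⟩
            rw [hx] at hxS
            exact h' S (mem_filter.1 hS).1 hxS
          rw [this]
          simp
      have hex : ∀ C ∈ I, ∃ Y : Finset α, Y ⊆ C ∧ Y.card = y C ^ 2 ∧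
          ∀ S ∈ L.filter (fun S => S ⊆ C ∧ S ≠ C), IsSquare {x | x ∈ S ∧ x ∈ Y}.ncard := by
        intro C hC
        exact ih α C _ (y C ^ 2) (hLC C hC) (hne C hC) ⟨y C, sq _⟩ (hy C hC)
      choose! Yf hYsub hYcard hYsq using hex
      refine ⟨I.biUnion Yf, ?_, ?_, ?_⟩
      · intro x hx
        rw [mem_biUnion] at hx
        obtain ⟨C, hC, hx⟩ := hx
        exact hsubX C hC (hYsub C hC hx)
      · rw [card_biUnion, ← hysum]
        · exact sum_congr rfl fun C hC => hYcard C hC
        · intro C hC C' hC' hne'
          exact disjoint_of_subset_left (hYsub C hC)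
            (disjoint_of_subset_right (hYsub C' hC') (hdisj C hC C' hC' hne'))
      · intro S hS
        rcases S.eq_empty_or_nonempty with rfl | ⟨x, hx⟩
        · rw [ncard_inter]
          simp
        · have hxX : x ∈ X := hL.sub S hS hx
          have hC : Mx L x ∈ I := mem_image_of_mem _ hxX
          have hSC : S ⊆ Mx L x := le_Mx hS hx
          have heq : S ∩ I.biUnion Yf = S ∩ Yf (Mx L x) := by
            ext z
            rw [mem_inter, mem_inter, mem_biUnion]
            refine and_congr_right fun hz => ?_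
            constructor
            · rintro ⟨C', hC', hz'⟩
              by_cases hne' : C' = Mx L x
              · rw [← hne']
                exact hz'
              · exact absurd (hSC hz)
                  (disjoint_left.1 (hdisj C' hC' _ hC hne') (hYsub C' hC' hz'))
            · intro hz'
              exact ⟨_, hC, hz'⟩
          by_cases hSeq : S = Mx L x
          · rw [ncard_inter, heq, hSeq, inter_eq_right.2 (hYsub _ hC), hYcard _ hC]
            exact ⟨_, sq _⟩
          · have := hYsq _ hC S (mem_filter.2 ⟨hS, hSC, hSeq⟩)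
            rw [ncard_inter] at this ⊢
            rw [heq]
            exact this

end Pool.Agent.R193.SQ
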